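import Mathlib
import Pool.Agent.LRP.Fin

/-!
# The Tauberian Tate conjecture for almost all products of hyperelliptic curves and Jacobians, in
# ranges from a power of the logarithm of the height to large powers of the height

Let `g i ≥ 1` for `i < k` and let `R` be a ring with a basis `b` of `d` elements over `ℤ`, for
example an order in a number field of degree `d`. A vector `a` of integers gives polynomials
`f i = pol b a i` of degree at most `2 * g i + 2` over `R`, hyperelliptic curves
`C i : y ^ 2 = f i (x)` of genus `g i` and their Jacobians `J i`. For exponents `m` and `n` let `V`
be the product of the `C i ^ m i` and the `J i ^ n i`, and let `bp φ g m n (pol b a)` be the trace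
of Frobenius at the prime `ker φ` of degree one on the second cohomology group of `V`, by the
Kunneth formula. For almost all `a` the Jacobians have no endomorphisms except the integers and
there are no homomorphisms between them, so that the rank of the Neron-Severi group of `V` is the
sum of the numbers `M * (M + 1) / 2` for `M = m i + n i`, and the conjecture says that the average
of `bp φ g m n (pol b a) * log p / p` over the primes of norm `p ≤ T` tends to this rank.

`result`: let `0 ≤ κ < 1 / 2` and `A > 1 / (1 - 2 κ)`. Outside a proportion `C * B ^ (-c)` of the
vectors `a` with entries in `[-B, B]`, where `c = (1 - 2 κ - 1 / A) ^ 2 / 100`, the error is at most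
`T ^ (-κ)` for all exponents and for all `T ≥ (log H) ^ A` with `T ≤ √H` or `T ≤ H ^ (2 g i / 9)`
for all `i`, where `H` is the largest absolute value of an entry of `a`. The error is the difference
of the average and of the rank times the average of the logarithms of the norms of all primes
(which tends to one by the prime ideal theorem), divided by `(∑ i, (m i + n i)) ^ 2`, a bound for
the number of factors squared. The same holds with arbitrary weights bounded by one. The primes of
degree two or more contribute `O(1 / √T)`. So for almost all curves, ordered by their height, the
error is at most `T ^ (-κ)` in a range which depends only on the curve and starts at a power of the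
logarithm of the height. The number of the exceptional vectors is smaller by a power of `B`.

The discriminants of the polynomials are of size `H ^ (4 * g i + 2)`, so that the length of the
range is a fixed power of the discriminants, uniformly in the genera.

Proof. The trace is a combination of the products of the traces of Frobenius on the first
cohomology groups of two of the curves, and of the traces of the squares of Frobenius. The trace of
Frobenius is the negative of a sum of the quadratic character over the points of the projective
line, over the field with `p` or `p ^ 2` elements.

* For `T ≤ √B` the box `[-B, B]` has a majorant (a product of Fejer kernels modulo a large multiple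
  of all primes up to `T`) for which the coordinates are exactly equidistributed modulo `p q`. So
  the sums over the primes have the second moment of sums of independent variables.
* For `T ≤ B ^ η` with a small `η > 0` the coordinates are equidistributed modulo the products of
  `2 h` primes, `h = log B / (2 log T)`, and the moments of order `2 h` give an exceptional set
  which is a power of `B` smaller than the box for each `T`, so that all `T ≤ B ^ η` can be treated
  one by one. This needs a bound `O(√p)` for the traces themselves, proved by the method of
  Stepanov (`LRP.stepanov`).
* For `T > √B` the second moments are sums over quadruples of points `x` in the fields of `p`,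
  `p ^ 2`, `q` and `q ^ 2` elements of mean values of products of quadratic characters of the values
  `f i (x)`. The mean value over the majorant is zero, unless some linear combination of the values
  has only small frequencies (`TM.lemB`), so that the coefficients `∑ c x ^ n / p`, `n ≤ 2 g + 2`, of
  this combination are all small modulo one. By the pigeonhole principle such a sequence satisfies
  many linear recurrences with small integral coefficients. One primitive polynomial `G` of degree
  less than `(8 g + 11) / 9` divides all the polynomials of these recurrences and annihilates the
  sequence (`TM.key`), and the theorem of Mahler on the height of a factor of an integral polynomial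
  shows that `G` has small coefficients; the points are roots of `G`. There are few such
  polynomials and each has few roots (`TM.card_quads`, `TM.diagB`), which gives second moments of
  the expected size for `p, q ≤ B ^ (2 g / 9)`.
* The maximal inequality of Rademacher and Menshov gives the result for all `T` at once.
* The primes of bad reduction divide the norm of the product of the leading coefficient and the
  resultant of `f i` and its derivative, which is a polynomial in the coordinates and is not zero
  for almost all of them by the lemma of Schwartz and Zippel; its logarithm is `O(log B)`.
-/

set_option autoImplicit false

namespace Pool.Agent.Results.MP_4589ac_nt.LongRangeJacobians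

open Pool.Agent.Helper28.TC.N Pool.Agent.LRP

open Classical in
/-- **Main theorem.** For almost all tuples of hyperelliptic curves over a number field, the
averages in the Tauberian Tate conjecture for all products of powers of the curves and of their
Jacobians are the expected rank times the average for the prime ideal theorem, up to an error of at
most `T ^ (-κ)` times the square of the number of factors, for all `T ≥ (log H) ^ A` at once up to
the square root of the height `H` and up to `H ^ (2 g / 9)`, for all `κ < 1 / 2` and
`A > 1 / (1 - 2 κ)`. The exceptional set is a power of `B` smaller than the box. -/
theorem result (k : ℕ) (g : Fin k → ℕ) (hg : ∀ i, 1 ≤ g i) (d : ℕ) (R : Type) [CommRing R]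
    (b : Module.Basis (Fin d) ℤ R) (κ A : ℝ) (hκ : 0 ≤ κ) (hA : 0 < A)
    (hκA : 0 < 1 - 2 * κ - 1 / A) :
    ∃ C : ℝ, ∀ w : ∀ p : ℕ, (R →+* ZMod p) → ℝ, (∀ p φ, |w p φ| ≤ 1) → ∀ B : ℕ, 1 ≤ B →
      (((box g d B).filter fun a => ∃ T : ℕ, Real.log (height a) ^ A ≤ T ∧
        (T ^ 2 ≤ height a ∨ ∀ i, T ^ 9 ≤ height a ^ (2 * g i)) ∧ ∃ m n : Fin k → ℕ,
        (∑ i, ((m i : ℝ) + n i)) ^ 2 * (T : ℝ) ^ (-κ) <
          |average w T g m n (pol b a) -
            (∑ i, ((m i : ℝ) + n i) * ((m i : ℝ) + n i + 1) / 2) * primeAverage w T|).card : ℝ) ≤
        C * (B : ℝ) ^ (-((1 - 2 * κ - 1 / A) ^ 2 / 100)) * (box g d B).card :=
  own b hg hκ hA hκA

end Pool.Agent.Results.MP_4589ac_nt.LongRangeJacobians
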