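import Mathlib
import Pool.Agent.Helper29.UT.Squares

/-!
# The Tauberian Tate conjecture for quadratic twists in mean square, for `T` to infinity

Let `R` be an order in a number field `k` of degree `d`: a ring with a basis over `ℤ` (the theorem
holds for all such rings). Let `W` be a projective surface over `R`, defined by the forms `h i`,
let `f` be a form of even degree, and for a squarefree integer `a` let `V_a` be the double cover
`a y ^ 2 = f (x)` of `W`, a quadratic twist of `V_1`. Let `P` be a set of primes of degree one
(homomorphisms `φ` from `R` to `F_p = ZMod p`) with `|#V_1(F_p) - #W(F_p)| ≤ M p` and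
`|#W(F_p) - p ^ 2 - 1| ≤ M₁ p` (`Bounds`); for example the primes of good reduction.

Let `D_a(T) = dev P h f a T` be the difference of the averages of the Tauberian Tate conjecture up
to `T` for `V_a` and for `W`, over the primes of `P`. `result`: for every `ε > 0` there is `T₀`,
which depends only on `ε`, `d`, `M` and `M₁`, and not on `R`, `W`, `f` and `P`, such that for all
`T ≥ T₀` the sum of `D_a(T) ^ 2` over all squarefree integers `a` with `|a| ≤ T ^ (1 / 16)` is at most
`7 (d M) ^ 2 + ε`.

If `V_1` and `W` are smooth with first Betti number zero then the trace of Frobenius on the second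
cohomology group is the number of points minus `p ^ 2 + 1` for the primes of good reduction, and
the hypotheses hold with `M = b_2(V_1) - b_2(W)` and `M₁ = b_2(W)` by Deligne. The rank of the
Neron-Severi group of `V_a` over `k` is that of `W` for all but at most `d M` of the `a`. Assume that the
conjecture holds for `W`, for example that `W` is the projective plane (double planes, for example
all K3 surfaces of degree two). Then, for `T` to infinity, the mean square of the error in the
conjecture over any `N` twists is at most `7 (d M) ^ 2 / N + ε`: at every large `T` the conjecture holds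
up to `ε` for all but `7 (d M / ε) ^ 2` of any finite set of twists `V_a`, and it holds for every
product of `N` distinct `V_a` up to a factor `1 + O(1 / √N)`, since the second cohomology group of the
product is the direct sum of those of the factors. If a set of twists has more than
`7 (d M / ε) ^ 2` members, then `|D_a(T)| ≤ ε` for infinitely many `T` for one of them.

Proof. `D_a(T) = S_a(T) / T` up to the terms of the primes dividing `2 a`, where `S_a(T)` is the sum
over `p ≤ T` of `(a/p) c_p log p` with `|c_p| ≤ d M`. For `T ≥ |a| ^ 16` we use the Bessel inequality
for the characters `(a/p)` with the weight of the Selberg sieve, with which they are almost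
orthogonal.
-/

set_option autoImplicit false

namespace Pool.Agent.Results.MP_4589ac_nt.QuadraticTwists

open MvPolynomial
open Pool.Agent.Helper29.QT Pool.Agent.Helper29.UT

/-- **Main theorem.** At every large `T` the averages of the Tauberian Tate conjecture for the
quadratic twists `V_a : a y ^ 2 = f (x)`, `x` in `W`, are close to that for `W` in mean square. -/
theorem result (d : ℕ) (M M₁ : ℝ) (hM0 : 0 ≤ M) (hM₁0 : 0 ≤ M₁) (ε : ℝ) (hε : 0 < ε) :
    ∃ T₀ : ℕ,
    ∀ (R : Type) [CommRing R] (_b : Module.Basis (Fin d) ℤ R) (P : ∀ p : ℕ, Set (R →+* ZMod p))
      (n c : ℕ) (h : Fin c → MvPolynomial (Fin n) R) (f : MvPolynomial (Fin n) R),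
      Bounds P h f M M₁ → ∀ T : ℕ, T₀ ≤ T →
        ∀ S : Finset ℤ, (∀ a ∈ S, Squarefree a ∧ |a| ^ 16 ≤ T) →
          ∑ a ∈ S, dev P h f a T ^ 2 ≤ 7 * (d * M) ^ 2 + ε := by
  obtain ⟨T₀, H⟩ := squares d hM0 hM₁0 ε
  exact ⟨T₀, fun R _ b P n c h f hM T hT => H hε R b P n c h f hM T hT⟩

end Pool.Agent.Results.MP_4589ac_nt.QuadraticTwists
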