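import Mathlib
import Pool.Agent.Helper29.DC.Final

/-!
# The Tauberian Tate conjecture and twists by Dirichlet characters

Let `R` be an order in a number field `k` of degree `d`: a ring with a basis over `ℤ` (the theorem
holds for all such rings). The primes of degree one of `R` are the kernels of the homomorphisms `φ`
to the fields `ZMod p`. Let `β p φ` be complex numbers with `|β p φ| ≤ M p` for all `p` and `φ`. For
a Dirichlet character `χ` let `S_χ(T)` be the average of the Tauberian Tate conjecture up to `T` of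
the numbers `χ(p) β p φ`.

`result`: for all `ε > 0` there is a constant `C`, which depends only on `d`, `M` and `ε`, such that
for all `R` and `β` the following holds for the primitive Dirichlet characters.
1. For all `K ≥ 1` there are at most `C (1 + log K)` exceptional characters; for all other
   primitive `χ` there are infinitely many `X` with `|S_χ(T)| ≤ ε` for all `T` in `[X / K, X]`.
2. For all `Y` and `2 ≤ T₀ ≤ T₁` the number of primitive `χ` of level at most `Y` with
   `|S_χ(T)| > ε` for some `T` in `[T₀, T₁]` is at most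
   `C (Y ^ 2 (log T₀) ^ 4 / T₀ + (log Y) ^ 9 + log T₁)`.
3. This number is at most `C (1 + log (T₁ / T₀))` if `Y ^ 24 ≤ T₀`.

Meaning. For a smooth projective variety `V` over `k` (of any dimension) let `β` be the traces of
Frobenius on the second cohomology group at the primes of good reduction, and zero at the other
primes; `M = b_2(V)` by Deligne. The conjecture for `V` over all the fields `k K`, `K` an abelian
extension of the rational numbers, follows if `S_χ(T)` tends to the multiplicity of the inverse of
`χ` in the Neron-Severi group of `V` over the algebraic closure of `k` for all `χ`, and this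
multiplicity is zero for all but finitely many `χ`. By (1), for one `V` and all but a bounded number
of `χ` this holds up to `ε` on arbitrarily long intervals `[X / K, X]` with `X` to infinity; by (2),
uniformly in `V`, for all `T` from `T₀` to `exp (c Y ^ 2)` and all `χ` of level at most `Y` but a
small proportion.

Proof. For `T ≥ Y ^ 24` we use the Bessel inequality for the characters with the weight of the
Selberg sieve, with which they are almost orthogonal, then a grid of `T` and an upper bound for the
number of primes in short intervals; for `Y ≤ T ≤ Y ^ 24` the eighth moment of `S_χ(T)`; for `T ≤ Y`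
the second moment over all characters of each level and the maximal inequality of Rademacher and
Menshov.
-/

set_option autoImplicit false

namespace Pool.Agent.Results.MP_4589ac_nt.Twists

open MvPolynomial Filter Topology
open Pool.Agent.Helper29.QT Pool.Agent.Helper29.UT Pool.Agent.Helper29.DC

/-- **Main theorem.** The averages of the traces twisted by Dirichlet characters are small for
almost all characters. -/
theorem result (d : ℕ) (M : ℝ) (hM0 : 0 ≤ M) (ε : ℝ) (hε : 0 < ε) :
    ∃ C : ℝ, ∀ (R : Type) [CommRing R] (_b : Module.Basis (Fin d) ℤ R)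
      (β : ∀ p : ℕ, (R →+* ZMod p) → ℂ),
        (∀ p : ℕ, p.Prime → ∀ φ : R →+* ZMod p, ‖β p φ‖ ≤ M * p) →
        (∀ K : ℕ, 1 ≤ K → ∃ E : Finset (Σ q : ℕ, DirichletCharacter ℂ q),
          (E.card : ℝ) ≤ C * (1 + Real.log K) ∧
          ∀ χ : Σ q : ℕ, DirichletCharacter ℂ q, 1 ≤ χ.1 → χ.2.IsPrimitive → χ ∉ E →
            ∃ᶠ X : ℕ in atTop, ∀ T : ℕ, X ≤ K * T → T ≤ X → ‖charAvg T χ.2 β‖ ≤ ε) ∧
        (∀ (S : Finset (Σ q : ℕ, DirichletCharacter ℂ q)) (Y T₀ T₁ : ℕ), 2 ≤ T₀ → T₀ ≤ T₁ →
          (∀ χ ∈ S, 1 ≤ χ.1 ∧ χ.1 ≤ Y ∧ χ.2.IsPrimitive ∧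
            ∃ T : ℕ, T₀ ≤ T ∧ T ≤ T₁ ∧ ε < ‖charAvg T χ.2 β‖) →
          (S.card : ℝ) ≤ C * ((Y : ℝ) ^ 2 * Real.log T₀ ^ 4 / T₀ + Real.log Y ^ 9 +
            Real.log T₁)) ∧
        (∀ (S : Finset (Σ q : ℕ, DirichletCharacter ℂ q)) (Y T₀ T₁ : ℕ), 2 ≤ T₀ → T₀ ≤ T₁ →
          Y ^ 24 ≤ T₀ →
          (∀ χ ∈ S, 1 ≤ χ.1 ∧ χ.1 ≤ Y ∧ χ.2.IsPrimitive ∧
            ∃ T : ℕ, T₀ ≤ T ∧ T ≤ T₁ ∧ ε < ‖charAvg T χ.2 β‖) →
          (S.card : ℝ) ≤ C * (1 + Real.log (T₁ / T₀))) := by
  obtain ⟨C, _, h⟩ := chars d hM0 hε
  refine ⟨C, fun R _ b β hβ => ?_⟩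
  obtain ⟨h1, h2, h3⟩ := h R b β hβ
  exact ⟨h3, h1, h2⟩

end Pool.Agent.Results.MP_4589ac_nt.Twists
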